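import Pool.Agent.Helper40.W4.Spec

set_option autoImplicit false

namespace Pool.Agent.Helper5.W4

open Pool.Agent.Helper40.W4 Polynomial Module UniqueFactorizationMonoid

lemma mem_map_iff_loc {T R' : Type} [CommRing T] [CommRing R'] (g : T →+* R') (P : Ideal T)
    (h1 : ∀ w : R', ∃ t b : T, IsUnit (g t) ∧ g t * w = g b) (w : R') :
    w ∈ P.map g ↔ ∃ t b : T, IsUnit (g t) ∧ b ∈ P ∧ g t * w = g b := by
  constructor
  · intro hw
    rw [Ideal.map] at hw
    refine Submodule.span_induction (p := fun w _ => ∃ t b : T, IsUnit (g t) ∧ b ∈ P ∧ g t * w = g b)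
      ?_ ?_ ?_ ?_ hw
    · rintro _ ⟨b, hb, rfl⟩
      exact ⟨1, b, by simp, hb, by simp⟩
    · exact ⟨1, 0, by simp, zero_mem _, by simp⟩
    · rintro x y - - ⟨t, b, ht, hb, e⟩ ⟨t', b', ht', hb', e'⟩
      refine ⟨t * t', t' * b + t * b', by rw [map_mul]; exact ht.mul ht',
        P.add_mem (P.mul_mem_left _ hb) (P.mul_mem_left _ hb'), ?_⟩
      rw [map_add, map_mul, map_mul, map_mul]
      linear_combination g t' * e + g t * e'
    · rintro a x - ⟨t, b, ht, hb, e⟩
      obtain ⟨s, d, hs, ed⟩ := h1 a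
      refine ⟨s * t, d * b, by rw [map_mul]; exact hs.mul ht, P.mul_mem_left _ hb, ?_⟩
      rw [map_mul, map_mul, smul_eq_mul]
      linear_combination g t * x * ed + g d * e
  · rintro ⟨t, b, ht, hb, e⟩
    have h2 : g t * w ∈ P.map g := by rw [e]; exact Ideal.mem_map_of_mem g hb
    exact (Ideal.unit_mul_mem_iff_mem _ ht).1 h2

lemma map_prime_or_top {T R' : Type} [CommRing T] [CommRing R'] (g : T →+* R')
    (hg : Function.Injective g) (P : Ideal T) (hP : P.IsPrime)
    (h1 : ∀ w : R', ∃ t b : T, IsUnit (g t) ∧ g t * w = g b) :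
    (P.map g).IsPrime ∨ P.map g = ⊤ := by
  by_cases htop : P.map g = ⊤
  · exact Or.inr htop
  left
  refine ⟨htop, ?_⟩
  intro w1 w2 hw
  obtain ⟨t, b, ht, hb, e⟩ := (mem_map_iff_loc g P h1 _).1 hw
  obtain ⟨t1, b1, ht1, e1⟩ := h1 w1
  obtain ⟨t2, b2, ht2, e2⟩ := h1 w2
  have key : t * (b1 * b2) = t1 * t2 * b := by
    apply hg
    simp only [map_mul]
    rw [← e1, ← e2, ← e]
    ring
  have hmem : t * (b1 * b2) ∈ P := by rw [key]; exact P.mul_mem_left _ hb
  rcases hP.mem_or_mem hmem with h | h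
  · exact absurd (Ideal.eq_top_of_isUnit_mem _ (Ideal.mem_map_of_mem g h) ht) htop
  · rcases hP.mem_or_mem h with h | h
    · left; exact (mem_map_iff_loc g P h1 _).2 ⟨t1, b1, ht1, h, e1⟩
    · right; exact (mem_map_iff_loc g P h1 _).2 ⟨t2, b2, ht2, h, e2⟩

/-- Divisors of a product of extended primes are extended. -/
lemma dvd_prod_map {R R' : Type} [CommRing R] [IsDedekindDomain R] [CommRing R']
    [IsDedekindDomain R'] (φ : R →+* R') (s : Multiset (Ideal R))
    (hs : ∀ p ∈ s, (p.map φ).IsPrime ∨ p.map φ = ⊤) (hs0 : ∀ p ∈ s, p.map φ ≠ ⊥) :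
    ∀ c' : Ideal R', c' ∣ (s.prod).map φ → ∃ b : Ideal R, c' = b.map φ := by
  induction s using Multiset.induction_on with
  | empty =>
    intro c' hc
    refine ⟨⊤, ?_⟩
    rw [Multiset.prod_zero, Ideal.one_eq_top, Ideal.map_top, ← Ideal.one_eq_top] at hc
    rw [Ideal.map_top, ← Ideal.one_eq_top]
    exact isUnit_iff_eq_one.1 (isUnit_of_dvd_one hc)
  | cons p s ih =>
    intro c' hc
    have ih' := ih (fun q hq => hs q (Multiset.mem_cons_of_mem hq))
      (fun q hq => hs0 q (Multiset.mem_cons_of_mem hq))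
    rw [Multiset.prod_cons, Ideal.map_mul] at hc
    rcases hs p (Multiset.mem_cons_self p s) with hp | hp
    · have hprime : Prime (p.map φ) :=
        Ideal.prime_of_isPrime (hs0 p (Multiset.mem_cons_self p s)) hp
      by_cases hdiv : p.map φ ∣ c'
      · obtain ⟨c'', rfl⟩ := hdiv
        have h2 : c'' ∣ (s.prod).map φ := (mul_dvd_mul_iff_left hprime.ne_zero).1 hc
        obtain ⟨b, rfl⟩ := ih' c'' h2
        exact ⟨p * b, by rw [Ideal.map_mul]⟩
      · obtain ⟨d, hd⟩ := hc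
        have h3 : p.map φ ∣ c' * d := ⟨_, hd.symm⟩
        rcases hprime.dvd_or_dvd h3 with h4 | h4
        · exact absurd h4 hdiv
        · obtain ⟨d', rfl⟩ := h4
          have h5 : c' ∣ (s.prod).map φ := by
            refine ⟨d', ?_⟩
            apply mul_left_cancel₀ hprime.ne_zero
            rw [hd]; ring
          exact ih' c' h5
    · rw [hp, ← Ideal.one_eq_top, one_mul] at hc
      exact ih' c' hc

theorem abs_thm : S_ABS := by
  classical
  intro R T R' _ _ _ _ _ _ f g hf hg h1 h2 h3 I' hI'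
  set φ : R →+* R' := g.comp f with hφ
  have hφi : Function.Injective φ := hg.comp hf
  obtain ⟨h, hhI, hh⟩ := h3 (I'.comap g)
  -- `h ≠ 0`
  have hh0 : h ≠ 0 := by
    obtain ⟨w, hw, hw0⟩ := Submodule.exists_mem_ne_zero_of_ne_bot hI'
    obtain ⟨t, b, ht, e⟩ := h1 w
    have hbI : b ∈ I'.comap g := by
      rw [Ideal.mem_comap, ← e]; exact I'.mul_mem_left _ hw
    have hb0 : b ≠ 0 := by
      rintro rfl
      rw [map_zero] at e
      exact hw0 ((ht.mul_right_eq_zero).1 e)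
    obtain ⟨c, hc, y, hy⟩ := hh b hbI
    rintro rfl
    rw [zero_mul] at hy
    rcases mul_eq_zero.1 hy with h4 | h4
    · exact hc ((map_eq_zero_iff f hf).1 h4)
    · exact hb0 h4
  -- a common denominator
  obtain ⟨s, hs⟩ : I'.FG := IsNoetherian.noetherian I'
  have hden : ∀ w ∈ I', ∃ c : R, c ≠ 0 ∧ φ c * w ∈ Ideal.span {g h} := by
    intro w hw
    obtain ⟨t, b, ht, e⟩ := h1 w
    have hbI : b ∈ I'.comap g := by
      rw [Ideal.mem_comap, ← e]; exact I'.mul_mem_left _ hw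
    obtain ⟨c, hc, y, hy⟩ := hh b hbI
    refine ⟨c, hc, ?_⟩
    have h5 : g t * (φ c * w) ∈ Ideal.span {g h} := by
      have : g t * (φ c * w) = g h * g y := by
        rw [← map_mul, ← hy, map_mul, ← e]
        show g t * (g (f c) * w) = _
        ring
      rw [this]
      exact Ideal.mul_mem_right _ _ (Ideal.mem_span_singleton_self _)
    exact (Ideal.unit_mul_mem_iff_mem _ ht).1 h5
  have hden2 : ∃ c : R, c ≠ 0 ∧ ∀ w ∈ s, φ c * w ∈ Ideal.span {g h} := by
    have hsI : ∀ w ∈ s, w ∈ I' := fun w hw => by rw [← hs]; exact Ideal.subset_span hw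
    clear hs
    induction s using Finset.induction_on with
    | empty => exact ⟨1, one_ne_zero, by simp⟩
    | insert a s ha ih =>
      obtain ⟨c, hc, hcs⟩ := ih (fun w hw => hsI w (Finset.mem_insert_of_mem hw))
      obtain ⟨d, hd, hda⟩ := hden a (hsI a (Finset.mem_insert_self a s))
      refine ⟨c * d, mul_ne_zero hc hd, ?_⟩
      intro w hw
      rcases Finset.mem_insert.1 hw with rfl | hw
      · rw [map_mul, mul_assoc]; exact Ideal.mul_mem_left _ _ hda
      · rw [map_mul, mul_comm (φ c), mul_assoc]; exact Ideal.mul_mem_left _ _ (hcs w hw)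
  obtain ⟨c, hc, hcs⟩ := hden2
  have hCI : Ideal.span {φ c} * I' ≤ Ideal.span {g h} := by
    rw [← hs, Ideal.span_mul_span', Ideal.span_le]
    rintro _ ⟨_, rfl, w, hw, rfl⟩
    exact hcs w hw
  have hHI : Ideal.span {g h} ≤ I' := by
    rw [Ideal.span_singleton_le_iff_mem]; exact hhI
  obtain ⟨c', hc'⟩ := Ideal.dvd_iff_le.2 hHI
  have hI0 : I' ≠ 0 := by rwa [Ideal.zero_eq_bot]
  have hc'dvd : c' ∣ Ideal.span {φ c} := by
    have h6 : I' * c' ∣ I' * Ideal.span {φ c} := by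
      rw [← hc', mul_comm I']; exact Ideal.dvd_iff_le.2 hCI
    exact (mul_dvd_mul_iff_left hI0).1 h6
  have hCmap : Ideal.span {φ c} = (normalizedFactors (Ideal.span {c})).prod.map φ := by
    rw [Ideal.prod_normalizedFactors_eq_self (by rwa [Ne, Ideal.span_singleton_eq_bot]),
      Ideal.map_span, Set.image_singleton]
  have hmap0 : ∀ p : Ideal R, p ≠ ⊥ → p.map φ ≠ ⊥ := by
    intro p hp hpm
    apply hp
    rw [Ideal.map_eq_bot_iff_le_ker] at hpm
    rw [(RingHom.injective_iff_ker_eq_bot φ).1 hφi, le_bot_iff] at hpm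
    exact hpm
  have hpr : ∀ p ∈ normalizedFactors (Ideal.span {c}), p ≠ ⊥ ∧ p.IsPrime := by
    intro p hp
    have h7 := prime_of_normalized_factor p hp
    exact ⟨by rw [← Ideal.zero_eq_bot]; exact h7.ne_zero, Ideal.isPrime_of_prime h7⟩
  rw [hCmap] at hc'dvd
  obtain ⟨b, hb⟩ := dvd_prod_map φ _ (fun p hp => by
      rw [hφ, ← Ideal.map_map]
      exact map_prime_or_top g hg _ (h2 p (hpr p hp).1 (hpr p hp).2) h1)
    (fun p hp => hmap0 p (hpr p hp).1) c' hc'dvd
  have hb0 : b ≠ ⊥ := by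
    rintro rfl
    rw [Ideal.map_bot] at hb
    rw [hb, Ideal.mul_bot, Ideal.span_singleton_eq_bot] at hc'
    exact hh0 ((map_eq_zero_iff g hg).1 hc')
  obtain ⟨z, hzb, hz0⟩ := Submodule.exists_mem_ne_zero_of_ne_bot hb0
  obtain ⟨bs, hbs⟩ := Ideal.dvd_span_singleton.2 hzb
  refine ⟨bs, φ z, g h, ?_, ?_, ?_, ?_⟩
  · rintro rfl
    rw [Ideal.mul_bot, Ideal.span_singleton_eq_bot] at hbs
    exact hz0 hbs
  · exact fun h8 => hz0 ((map_eq_zero_iff φ hφi).1 h8)
  · exact fun h8 => hh0 ((map_eq_zero_iff g hg).1 h8)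
  · have e1 : Ideal.span {φ z} = b.map φ * bs.map φ := by
      rw [← Ideal.map_mul, ← hbs, Ideal.map_span, Set.image_singleton]
    rw [e1, hc', hb]
    ring

end Pool.Agent.Helper5.W4
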