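import Pool.Agent.Helper40.W4.Spec

set_option autoImplicit false

namespace Pool.Agent.Helper5.W4

open Pool.Agent.Helper40.W4 Polynomial Module

theorem add_thm : S_ADD := by
  intro k R _ _ _ _ hfin I J hI hJ
  have hIJ : I * J ≠ ⊥ := by
    rw [← Ideal.zero_eq_bot] at *
    exact mul_ne_zero hI hJ
  obtain ⟨a, ha⟩ := IsDedekindDomain.exists_sup_span_eq (Ideal.mul_le_left : I * J ≤ I) hIJ
  have haI : a ∈ I := by
    rw [← ha]
    exact Ideal.mem_sup_right (Ideal.mem_span_singleton_self a)
  -- the map `R / J → R / IJ`, multiplication by `a`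
  let f : R →ₗ[R] R := LinearMap.mulLeft R a
  have hf : J ≤ Submodule.comap f (I * J) := by
    intro r hr
    show a * r ∈ I * J
    exact Ideal.mul_mem_mul haI hr
  let φ : (R ⧸ J) →ₗ[R] (R ⧸ (I * J)) := Submodule.mapQ J (I * J) f hf
  let ψ : (R ⧸ (I * J)) →ₗ[R] (R ⧸ I) := Submodule.mapQ (I * J) I LinearMap.id
    (by intro r hr; exact Ideal.mul_le_left hr)
  have hφ : Function.Injective φ := by
    rw [← LinearMap.ker_eq_bot, LinearMap.ker_eq_bot']
    intro m hm
    obtain ⟨r, rfl⟩ := Submodule.Quotient.mk_surjective J m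
    have h1 : a * r ∈ I * J := by
      have : φ (Submodule.Quotient.mk r) = Submodule.Quotient.mk (a * r) := rfl
      rw [this] at hm
      exact (Submodule.Quotient.mk_eq_zero _).1 hm
    have h2 : I * Ideal.span {r} ≤ I * J := by
      conv_lhs => rw [← ha]
      rw [Ideal.sup_mul, sup_le_iff]
      constructor
      · exact Ideal.mul_le_left
      · rw [Ideal.span_singleton_mul_span_singleton, Ideal.span_singleton_le_iff_mem]
        exact h1
    have h3 : Ideal.span {r} ≤ J := by
      have h4 : I * J ∣ I * Ideal.span {r} := Ideal.dvd_iff_le.2 h2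
      have h5 : J ∣ Ideal.span {r} := by
        refine (mul_dvd_mul_iff_left ?_).1 h4
        rwa [Ideal.zero_eq_bot]
      exact Ideal.dvd_iff_le.1 h5
    exact (Submodule.Quotient.mk_eq_zero _).2 (h3 (Ideal.mem_span_singleton_self r))
  have hψ : Function.Surjective ψ := by
    intro m
    obtain ⟨r, rfl⟩ := Submodule.Quotient.mk_surjective I m
    exact ⟨Submodule.Quotient.mk r, rfl⟩
  have hex : LinearMap.range φ = LinearMap.ker ψ := by
    apply le_antisymm
    · rintro _ ⟨m, rfl⟩
      obtain ⟨r, rfl⟩ := Submodule.Quotient.mk_surjective J m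
      have : ψ (φ (Submodule.Quotient.mk r)) = Submodule.Quotient.mk (a * r) := rfl
      rw [LinearMap.mem_ker, this, Submodule.Quotient.mk_eq_zero]
      exact Ideal.mul_mem_right r I haI
    · intro m hm
      obtain ⟨r, rfl⟩ := Submodule.Quotient.mk_surjective (I * J) m
      have h1 : r ∈ I := by
        have : ψ (Submodule.Quotient.mk r) = Submodule.Quotient.mk r := rfl
        rw [LinearMap.mem_ker, this] at hm
        exact (Submodule.Quotient.mk_eq_zero _).1 hm
      rw [← ha] at h1
      obtain ⟨u, hu, v, hv, rfl⟩ := Submodule.mem_sup.1 h1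
      obtain ⟨w, rfl⟩ := Ideal.mem_span_singleton'.1 hv
      refine ⟨Submodule.Quotient.mk w, ?_⟩
      have : φ (Submodule.Quotient.mk w) = Submodule.Quotient.mk (a * w) := rfl
      rw [this, Submodule.Quotient.eq]
      have : a * w - (u + w * a) = -u := by ring
      rw [this]
      exact neg_mem hu
  haveI := hfin (I * J) hIJ
  haveI := hfin I hI
  haveI := hfin J hJ
  let φk : (R ⧸ J) →ₗ[k] (R ⧸ (I * J)) := φ.restrictScalars k
  let ψk : (R ⧸ (I * J)) →ₗ[k] (R ⧸ I) := ψ.restrictScalars k
  have e1 := LinearMap.finrank_range_add_finrank_ker ψk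
  have e2 : LinearMap.range ψk = ⊤ := LinearMap.range_eq_top.2 hψ
  have e3 : LinearMap.ker ψk = LinearMap.range φk := by
    ext x
    constructor
    · intro hx
      have : x ∈ LinearMap.ker ψ := hx
      rw [← hex] at this
      obtain ⟨y, hy⟩ := this
      exact ⟨y, hy⟩
    · rintro ⟨y, hy⟩
      have : x ∈ LinearMap.range φ := ⟨y, hy⟩
      rw [hex] at this
      exact this
  rw [e2, e3, finrank_top, LinearMap.finrank_range_of_inj (f := φk) hφ] at e1
  exact e1.symm

end Pool.Agent.Helper5.W4
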