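import Pool.Agent.Helper40.W4.Spec

set_option autoImplicit false

namespace Pool.Agent.Helper5.W4

open Pool.Agent.Helper40.W4 Polynomial Module IntermediateField

/-- `k` is quadratically closed in `k(u)`. -/
lemma nonsq_trans {k k' : Type} [Field k] [Field k'] [Algebra k k'] {u : k'}
    (hu : Transcendental k u) (hu' : k⟮u⟯ = ⊤) {a : k} (ha : ¬ IsSquare a) :
    ¬ IsSquare (algebraMap k k' a) := by
  rintro ⟨w, hw⟩
  have hwm : w ∈ k⟮u⟯ := by rw [hu']; exact IntermediateField.mem_top
  obtain ⟨r, s, rfl⟩ := (IntermediateField.mem_adjoin_simple_iff k w).1 hwm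
  have hinj : Function.Injective (aeval u : k[X] →ₐ[k] k') := transcendental_iff_injective.1 hu
  by_cases hs : s = 0
  · subst hs
    rw [map_zero, div_zero, mul_zero, map_eq_zero] at hw
    exact ha ⟨0, by rw [hw, mul_zero]⟩
  · have hs' : aeval u s ≠ 0 := fun h => hs (hinj (by rw [h, map_zero]))
    have h1 : C a * s ^ 2 = r ^ 2 := by
      apply hinj
      simp only [map_mul, map_pow, aeval_C]
      rw [hw]
      field_simp
    have h2 := congrArg Polynomial.leadingCoeff h1
    rw [leadingCoeff_mul, leadingCoeff_pow, leadingCoeff_pow, leadingCoeff_C] at h2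
    have h3 : s.leadingCoeff ≠ 0 := leadingCoeff_ne_zero.2 hs
    apply ha
    refine ⟨r.leadingCoeff / s.leadingCoeff, ?_⟩
    field_simp
    exact h2

lemma squarefree_fpoly_map {k k' : Type} [Field k] [Field k'] [CharZero k] [CharZero k']
    (φ : k →+* k') {a c : k} (h : Squarefree (fpoly a c)) : Squarefree (fpoly (φ a) (φ c)) := by
  rw [← fpoly_map, ← PerfectField.separable_iff_squarefree]
  exact ((PerfectField.separable_iff_squarefree).2 h).map

/-- Elements with a denominator. -/
def denomSubring {T R' : Type} [CommRing T] [CommRing R'] (g : T →+* R') : Subring R' where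
  carrier := {w | ∃ t b : T, IsUnit (g t) ∧ g t * w = g b}
  mul_mem' := by
    rintro w v ⟨t, b, ht, e⟩ ⟨t', b', ht', e'⟩
    refine ⟨t * t', b * b', by rw [map_mul]; exact ht.mul ht', ?_⟩
    rw [map_mul, map_mul, ← e, ← e']; ring
  one_mem' := ⟨1, 1, by simp, by simp⟩
  add_mem' := by
    rintro w v ⟨t, b, ht, e⟩ ⟨t', b', ht', e'⟩
    refine ⟨t * t', t' * b + t * b', by rw [map_mul]; exact ht.mul ht', ?_⟩
    rw [map_add, map_mul, map_mul, map_mul, ← e, ← e']; ring
  zero_mem' := ⟨1, 0, by simp, by simp⟩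
  neg_mem' := by
    rintro w ⟨t, b, ht, e⟩
    exact ⟨t, -b, ht, by rw [map_neg, ← e]; ring⟩

lemma mem_denomSubring {T R' : Type} [CommRing T] [CommRing R'] (g : T →+* R') (w : R') :
    w ∈ denomSubring g ↔ ∃ t b : T, IsUnit (g t) ∧ g t * w = g b := Iff.rfl

lemma denom_of_image {T R' : Type} [CommRing T] [CommRing R'] (g : T →+* R') (b : T) :
    g b ∈ denomSubring g := ⟨1, b, by simp, by simp⟩

lemma denom_div {T R' : Type} [CommRing T] [CommRing R'] (g : T →+* R') (t b : T) (w : R')
    (ht : IsUnit (g t)) (h : g t * w = g b) : w ∈ denomSubring g := ⟨t, b, ht, h⟩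

/-- The ring `k'[X] + k'[X] Y` is generated by constants, `X` and `Y`. -/
lemma BB_mem_subring {k' : Type} [Field k'] {a c : k'} (S : Subring (BB k' a c))
    (hC : ∀ x : k', (⟨C x, 0⟩ : BB k' a c) ∈ S) (hX : (⟨X, 0⟩ : BB k' a c) ∈ S)
    (hY : (⟨0, 1⟩ : BB k' a c) ∈ S) (w : BB k' a c) : w ∈ S := by
  have h1 : ∀ p : k'[X], (⟨p, 0⟩ : BB k' a c) ∈ S := by
    intro p
    induction p using Polynomial.induction_on' with
    | add p q hp hq =>
      have : (⟨p + q, 0⟩ : BB k' a c) = ⟨p, 0⟩ + ⟨q, 0⟩ := by ext1 <;> simp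
      rw [this]; exact S.add_mem hp hq
    | monomial n x =>
      have : (⟨monomial n x, 0⟩ : BB k' a c) = ⟨C x, 0⟩ * ⟨X, 0⟩ ^ n := by
        rw [← C_mul_X_pow_eq_monomial]
        have h2 : ∀ n : ℕ, (⟨X, 0⟩ : BB k' a c) ^ n = ⟨X ^ n, 0⟩ := by
          intro n
          induction n with
          | zero => ext1 <;> simp [QuadraticAlgebra.re_one, QuadraticAlgebra.im_one]
          | succ n ih => rw [pow_succ, ih]; ext1 <;> simp [pow_succ]
        rw [h2]
        ext1 <;> simp
      rw [this]; exact S.mul_mem (hC x) (S.pow_mem hX n)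
  have : w = ⟨w.re, 0⟩ + ⟨w.im, 0⟩ * ⟨0, 1⟩ := by ext1 <;> simp
  rw [this]
  exact S.add_mem (h1 _) (S.mul_mem (h1 _) hY)

/-- Pseudo-division: ideals of `B[X]` are principal up to denominators in `B`. -/
lemma principal_up_to_denom {B : Type} [CommRing B] [IsDomain B] (I : Ideal B[X]) :
    ∃ h ∈ I, ∀ x ∈ I, ∃ c : B, c ≠ 0 ∧ ∃ y, C c * x = h * y := by
  classical
  by_cases hI : I = ⊥
  · subst hI
    exact ⟨0, rfl, fun x hx => ⟨1, one_ne_zero, 0, by rw [Ideal.mem_bot.1 hx]; simp⟩⟩
  obtain ⟨w, hw, hw0⟩ := Submodule.exists_mem_ne_zero_of_ne_bot hI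
  have hex : ∃ n : ℕ, ∃ h ∈ I, h ≠ 0 ∧ h.natDegree = n := ⟨_, w, hw, hw0, rfl⟩
  obtain ⟨h, hhI, hh0, hhn⟩ := Nat.find_spec hex
  have hmin : ∀ x ∈ I, x.natDegree < h.natDegree → x = 0 := by
    intro x hx hlt
    by_contra hx0
    rw [hhn] at hlt
    exact Nat.find_min hex hlt ⟨x, hx, hx0, rfl⟩
  refine ⟨h, hhI, ?_⟩
  have hlc : h.leadingCoeff ≠ 0 := leadingCoeff_ne_zero.2 hh0
  have main : ∀ n : ℕ, ∀ x ∈ I, x.natDegree ≤ n → ∃ c : B, c ≠ 0 ∧ ∃ y, C c * x = h * y := by
    intro n
    induction n using Nat.strong_induction_on with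
    | _ n ih =>
      intro x hx hxn
      by_cases hlt : x.natDegree < h.natDegree
      · rw [hmin x hx hlt]
        exact ⟨1, one_ne_zero, 0, by simp⟩
      push Not at hlt
      by_cases hx0 : x = 0
      · rw [hx0]; exact ⟨1, one_ne_zero, 0, by simp⟩
      set x' := C h.leadingCoeff * x - C x.leadingCoeff * X ^ (x.natDegree - h.natDegree) * h with hx'
      have hx'I : x' ∈ I := I.sub_mem (I.mul_mem_left _ hx) (I.mul_mem_left _ hhI)
      have hxlc : x.leadingCoeff ≠ 0 := leadingCoeff_ne_zero.2 hx0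
      have key : ∃ c : B, c ≠ 0 ∧ ∃ y, C c * x' = h * y := by
        by_cases hx'0 : x' = 0
        · rw [hx'0]; exact ⟨1, one_ne_zero, 0, by simp⟩
        have hd1 : (C h.leadingCoeff * x).degree = x.degree := by
          rw [degree_mul, degree_C hlc, zero_add]
        have hd2 : (C x.leadingCoeff * X ^ (x.natDegree - h.natDegree) * h).degree = x.degree := by
          rw [degree_mul, degree_mul, degree_C hxlc, zero_add, degree_X_pow,
            degree_eq_natDegree hh0, degree_eq_natDegree hx0, ← Nat.cast_add,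
            Nat.sub_add_cancel hlt]
        have hdeg : x'.degree < (C h.leadingCoeff * x).degree := by
          apply degree_sub_lt_left
          · rw [hd1, hd2]
          · exact mul_ne_zero (C_ne_zero.2 hlc) hx0
          · rw [leadingCoeff_mul, leadingCoeff_mul, leadingCoeff_mul, leadingCoeff_C, leadingCoeff_C,
              leadingCoeff_X_pow]
            ring
        rw [hd1] at hdeg
        have hlt2 : x'.natDegree < x.natDegree := natDegree_lt_natDegree hx'0 hdeg
        exact ih x'.natDegree (lt_of_lt_of_le hlt2 hxn) x' hx'I le_rfl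
      obtain ⟨c, hc, y, hy⟩ := key
      refine ⟨c * h.leadingCoeff, mul_ne_zero hc hlc,
        y + C c * C x.leadingCoeff * X ^ (x.natDegree - h.natDegree), ?_⟩
      rw [hx'] at hy
      rw [C_mul]
      linear_combination hy
  intro x hx
  exact main _ x hx le_rfl

end Pool.Agent.Helper5.W4
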