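import Pool.Agent.Helper5.W4.QA
import Pool.Agent.Helper5.W4.ABS

set_option autoImplicit false

namespace Pool.Agent.Helper5.W4

open Pool.Agent.Helper40.W4 Polynomial Module IntermediateField

section ev

variable {k k' : Type} [Field k] [Field k'] [Algebra k k'] (a c : k) (u : k')

/-- `B[u]`. -/
noncomputable def ev : (BB k a c)[X] →+* BB k' (algebraMap k k' a) (algebraMap k k' c) :=
  Polynomial.eval₂RingHom (bmap (algebraMap k k') (a := a) (c := c) rfl rfl)
    (algebraMap k' (BB k' (algebraMap k k' a) (algebraMap k k' c)) u)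

/-- Real parts. -/
noncomputable def cre (p : (BB k a c)[X]) (j : ℕ) : k[X] :=
  ∑ i ∈ p.support, monomial i ((p.coeff i).re.coeff j)

/-- Imaginary parts. -/
noncomputable def cim (p : (BB k a c)[X]) (j : ℕ) : k[X] :=
  ∑ i ∈ p.support, monomial i ((p.coeff i).im.coeff j)

lemma ev_re (p : (BB k a c)[X]) (j : ℕ) : (ev a c u p).re.coeff j = aeval u (cre a c p j) := by
  have h1 : ev a c u p = ∑ i ∈ p.support, bmap (algebraMap k k') (a := a) (c := c) rfl rfl
      (p.coeff i) * (algebraMap k' (BB k' (algebraMap k k' a) (algebraMap k k' c)) u) ^ i := by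
    simp only [ev, coe_eval₂RingHom]
    rw [eval₂_eq_sum, sum_def]
  rw [h1, cre, map_sum]
  have h2 : ∀ s : Finset ℕ, ((∑ i ∈ s, bmap (algebraMap k k') (a := a) (c := c) rfl rfl
      (p.coeff i) * (algebraMap k' (BB k' (algebraMap k k' a) (algebraMap k k' c)) u) ^ i :
        BB k' (algebraMap k k' a) (algebraMap k k' c))).re.coeff j =
      ∑ i ∈ s, algebraMap k k' ((p.coeff i).re.coeff j) * u ^ i := by
    intro s
    induction s using Finset.induction_on with
    | empty => simp
    | insert i s hi ih =>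
      rw [Finset.sum_insert hi, Finset.sum_insert hi, QuadraticAlgebra.re_add, coeff_add, ih]
      congr 1
      have h3 : (algebraMap k' (BB k' (algebraMap k k' a) (algebraMap k k' c)) u) ^ i =
          (⟨C (u ^ i), 0⟩ : BB k' (algebraMap k k' a) (algebraMap k k' c)) := by
        rw [← map_pow]; rfl
      rw [h3]
      show ((p.coeff i).re.map (algebraMap k k') * C (u ^ i) + _ * _ * 0).coeff j = _
      rw [mul_zero, add_zero, coeff_mul_C, coeff_map]
  rw [h2]
  apply Finset.sum_congr rfl
  intro i _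
  rw [aeval_monomial]

lemma ev_im (p : (BB k a c)[X]) (j : ℕ) : (ev a c u p).im.coeff j = aeval u (cim a c p j) := by
  have h1 : ev a c u p = ∑ i ∈ p.support, bmap (algebraMap k k') (a := a) (c := c) rfl rfl
      (p.coeff i) * (algebraMap k' (BB k' (algebraMap k k' a) (algebraMap k k' c)) u) ^ i := by
    simp only [ev, coe_eval₂RingHom]
    rw [eval₂_eq_sum, sum_def]
  rw [h1, cim, map_sum]
  have h2 : ∀ s : Finset ℕ, ((∑ i ∈ s, bmap (algebraMap k k') (a := a) (c := c) rfl rfl
      (p.coeff i) * (algebraMap k' (BB k' (algebraMap k k' a) (algebraMap k k' c)) u) ^ i :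
        BB k' (algebraMap k k' a) (algebraMap k k' c))).im.coeff j =
      ∑ i ∈ s, algebraMap k k' ((p.coeff i).im.coeff j) * u ^ i := by
    intro s
    induction s using Finset.induction_on with
    | empty => simp
    | insert i s hi ih =>
      rw [Finset.sum_insert hi, Finset.sum_insert hi, QuadraticAlgebra.im_add, coeff_add, ih]
      congr 1
      have h3 : (algebraMap k' (BB k' (algebraMap k k' a) (algebraMap k k' c)) u) ^ i =
          (⟨C (u ^ i), 0⟩ : BB k' (algebraMap k k' a) (algebraMap k k' c)) := by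
        rw [← map_pow]; rfl
      rw [h3]
      show ((p.coeff i).re.map (algebraMap k k') * 0 +
        (p.coeff i).im.map (algebraMap k k') * C (u ^ i) + 0 * _ * 0).coeff j = _
      rw [mul_zero, mul_zero, add_zero, zero_add, coeff_mul_C, coeff_map]
  rw [h2]
  apply Finset.sum_congr rfl
  intro i _
  rw [aeval_monomial]

lemma eq_zero_of_parts (p : (BB k a c)[X]) (h : ∀ j, cre a c p j = 0 ∧ cim a c p j = 0) :
    p = 0 := by
  ext1 i
  rw [coeff_zero]
  by_cases hi : i ∈ p.support
  · ext j
    · have h3 := congrArg (fun q => Polynomial.coeff q i) (h j).1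
      simp only [cre, finsetSum_coeff, coeff_monomial, coeff_zero] at h3
      rw [Finset.sum_ite_eq' p.support i] at h3
      simpa [hi] using h3
    · have h3 := congrArg (fun q => Polynomial.coeff q i) (h j).2
      simp only [cim, finsetSum_coeff, coeff_monomial, coeff_zero] at h3
      rw [Finset.sum_ite_eq' p.support i] at h3
      simpa [hi] using h3
  · exact notMem_support_iff.1 hi

lemma ev_map (q : k[X]) : ev a c u (q.map (algebraMap k (BB k a c))) =
    algebraMap k' (BB k' (algebraMap k k' a) (algebraMap k k' c)) (aeval u q) := by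
  simp only [ev, coe_eval₂RingHom]
  rw [eval₂_map]
  have : (bmap (algebraMap k k') (a := a) (c := c) rfl rfl).comp (algebraMap k (BB k a c)) =
      (algebraMap k' (BB k' (algebraMap k k' a) (algebraMap k k' c))).comp (algebraMap k k') := by
    ext1 z
    have h4 : (algebraMap k (BB k a c)) z = ⟨C z, 0⟩ := rfl
    have h5 : (algebraMap k' (BB k' (algebraMap k k' a) (algebraMap k k' c))) (algebraMap k k' z) =
      ⟨C (algebraMap k k' z), 0⟩ := rfl
    rw [RingHom.comp_apply, RingHom.comp_apply, h4, h5]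
    show (⟨(C z).map (algebraMap k k'), (0 : k[X]).map (algebraMap k k')⟩ :
      BB k' (algebraMap k k' a) (algebraMap k k' c)) = _
    rw [Polynomial.map_C, Polynomial.map_zero]
  rw [this, ← Polynomial.hom_eval₂]
  rfl

end ev

section conic

variable {k k' : Type} [Field k] [Field k'] [CharZero k] [Algebra k k'] {α β : k} {x y : k'}

lemma conic_lin (hα : α ≠ 0) (hβ : β ≠ 0) (hy : Transcendental k y)
    (hx : x ^ 2 = algebraMap k k' α * y ^ 2 + algebraMap k k' β) {P Q : k[X]}
    (h : aeval y P + aeval y Q * x = 0) : P = 0 ∧ Q = 0 := by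
  have hinj : Function.Injective (aeval y : k[X] →ₐ[k] k') := transcendental_iff_injective.1 hy
  have h1 : P ^ 2 = Q ^ 2 * (C α * X ^ 2 + C β) := by
    apply hinj
    simp only [map_pow, map_mul, map_add, aeval_C, aeval_X]
    rw [← hx]
    linear_combination (aeval y P - aeval y Q * x) * h
  have h2 := nsquare_domain hα hβ h1
  exact ⟨h2.2, h2.1⟩

lemma conic_form (hα : α ≠ 0) (hβ : β ≠ 0) (hy : Transcendental k y)
    (hx : x ^ 2 = algebraMap k k' α * y ^ 2 + algebraMap k k' β) (ht : adjoin k {x, y} = ⊤)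
    (z : k') : ∃ P Q D : k[X], D ≠ 0 ∧ aeval y D * z = aeval y P + aeval y Q * x := by
  have hinj : Function.Injective (aeval y : k[X] →ₐ[k] k') := transcendental_iff_injective.1 hy
  have halg : ∀ r ∈ Algebra.adjoin k {x, y}, ∃ P Q : k[X], r = aeval y P + aeval y Q * x := by
    intro r hr
    induction hr using Algebra.adjoin_induction with
    | mem z hz =>
      rcases hz with rfl | rfl
      · exact ⟨0, 1, by simp⟩
      · exact ⟨X, 0, by simp⟩
    | algebraMap r => exact ⟨C r, 0, by simp⟩
    | add r s _ _ hr hs =>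
      obtain ⟨P, Q, rfl⟩ := hr
      obtain ⟨P', Q', rfl⟩ := hs
      exact ⟨P + P', Q + Q', by rw [map_add, map_add]; ring⟩
    | mul r s _ _ hr hs =>
      obtain ⟨P, Q, rfl⟩ := hr
      obtain ⟨P', Q', rfl⟩ := hs
      refine ⟨P * P' + Q * Q' * (C α * X ^ 2 + C β), P * Q' + P' * Q, ?_⟩
      simp only [map_pow, map_mul, map_add, aeval_C, aeval_X]
      rw [← hx]
      ring
  have hz : z ∈ adjoin k {x, y} := by rw [ht]; exact IntermediateField.mem_top
  obtain ⟨r, hr, s, hs, rfl⟩ := IntermediateField.mem_adjoin_iff_div.1 hz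
  obtain ⟨P, Q, rfl⟩ := halg r hr
  obtain ⟨P', Q', rfl⟩ := halg s hs
  by_cases h0 : aeval y P' + aeval y Q' * x = 0
  · exact ⟨0, 0, 1, one_ne_zero, by rw [h0]; simp⟩
  · refine ⟨P * P' - Q * Q' * (C α * X ^ 2 + C β), Q * P' - P * Q',
      P' ^ 2 - Q' ^ 2 * (C α * X ^ 2 + C β), ?_, ?_⟩
    · intro h
      have h2 := nsquare_domain hα hβ (P := P') (Q := Q') (by linear_combination h)
      apply h0
      rw [h2.1, h2.2]
      simp
    · simp only [map_pow, map_mul, map_add, map_sub, aeval_C, aeval_X]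
      rw [← hx]
      field_simp
      ring

lemma conic_nsq (hα : α ≠ 0) (hβ : β ≠ 0) (hy : Transcendental k y)
    (hx : x ^ 2 = algebraMap k k' α * y ^ 2 + algebraMap k k' β) (ht : adjoin k {x, y} = ⊤)
    {a : k} (ha : ¬ IsSquare a) : ¬ IsSquare (algebraMap k k' a) := by
  rintro ⟨w, hw⟩
  have ha0 : a ≠ 0 := by rintro rfl; exact ha ⟨0, by simp⟩
  obtain ⟨P, Q, D, hD, h⟩ := conic_form hα hβ hy hx ht w
  have h1 : aeval y (P ^ 2 + Q ^ 2 * (C α * X ^ 2 + C β) - C a * D ^ 2) +
      aeval y (C 2 * P * Q) * x = 0 := by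
    simp only [map_pow, map_mul, map_add, map_sub, aeval_C, aeval_X]
    rw [← hx, hw, show algebraMap k k' 2 = 2 from map_ofNat _ 2]
    linear_combination (- (aeval y D * w) - (aeval y P + aeval y Q * x)) * h
  obtain ⟨h2, h3⟩ := conic_lin hα hβ hy hx h1
  have h4 : P = 0 ∨ Q = 0 := by
    rcases mul_eq_zero.1 h3 with h5 | h5
    · rcases mul_eq_zero.1 h5 with h6 | h6
      · exact absurd (C_eq_zero.1 h6) two_ne_zero
      · exact Or.inl h6
    · exact Or.inr h5
  rcases h4 with rfl | rfl
  · have := nsquare_field hα hβ ha0 (P := D) (Q := Q) (by linear_combination -h2)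
    exact hD this.2
  · have h5 : C a * D ^ 2 = P ^ 2 := by linear_combination -h2
    have h6 := congrArg Polynomial.leadingCoeff h5
    rw [leadingCoeff_mul, leadingCoeff_pow, leadingCoeff_pow, leadingCoeff_C] at h6
    have h7 : D.leadingCoeff ≠ 0 := leadingCoeff_ne_zero.2 hD
    apply ha
    refine ⟨P.leadingCoeff / D.leadingCoeff, ?_⟩
    field_simp
    exact h6

end conic

/-- Principal up to denominators, from a localization. -/
lemma principal_of_loc {B T Tκ : Type} [CommRing B] [IsDomain B] [CommRing T] [CommRing Tκ]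
    (f : B →+* T) (ι : T →+* Tκ) (hι : Function.Injective ι)
    (hloc : ∀ t : Tκ, ∃ c : B, c ≠ 0 ∧ ∃ b : T, ι (f c) * t = ι b)
    (I : Ideal T) (hI : ∃ w, I.map ι = Ideal.span {w})
    (_hu : ∀ c : B, c ≠ 0 → IsUnit (ι (f c))) :
    ∃ h ∈ I, ∀ x ∈ I, ∃ c : B, c ≠ 0 ∧ ∃ y, f c * x = h * y := by
  obtain ⟨w, hw⟩ := hI
  have hmem : ∀ v ∈ I.map ι, ∃ c : B, c ≠ 0 ∧ ∃ b ∈ I, ι (f c) * v = ι b := by
    intro v hv
    rw [Ideal.map] at hv
    refine Submodule.span_induction (p := fun v _ => ∃ c : B, c ≠ 0 ∧ ∃ b ∈ I, ι (f c) * v = ι b)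
      ?_ ?_ ?_ ?_ hv
    · rintro _ ⟨b, hb, rfl⟩
      exact ⟨1, one_ne_zero, b, hb, by simp⟩
    · exact ⟨1, one_ne_zero, 0, zero_mem _, by simp⟩
    · rintro v v' - - ⟨c, hc, b, hb, e⟩ ⟨c', hc', b', hb', e'⟩
      refine ⟨c * c', mul_ne_zero hc hc', f c' * b + f c * b',
        I.add_mem (I.mul_mem_left _ hb) (I.mul_mem_left _ hb'), ?_⟩
      simp only [map_mul, map_add]
      linear_combination ι (f c') * e + ι (f c) * e'
    · rintro r v - ⟨c, hc, b, hb, e⟩
      obtain ⟨d, hd, s, es⟩ := hloc r
      refine ⟨c * d, mul_ne_zero hc hd, s * b, I.mul_mem_left _ hb, ?_⟩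
      simp only [map_mul, smul_eq_mul]
      linear_combination ι (f c) * v * es + ι s * e
  obtain ⟨c, hc, h, hh, e⟩ := hmem w (by rw [hw]; exact Ideal.mem_span_singleton_self w)
  refine ⟨h, hh, ?_⟩
  intro z hz
  have h1 : ι z ∈ Ideal.span {w} := by rw [← hw]; exact Ideal.mem_map_of_mem ι hz
  obtain ⟨t, ht⟩ := Ideal.mem_span_singleton'.1 h1
  obtain ⟨d, hd, s, es⟩ := hloc t
  refine ⟨c * d, mul_ne_zero hc hd, s, ?_⟩
  apply hι
  simp only [map_mul]
  rw [← ht]
  linear_combination (ι (f c) * w) * es + ι s * e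

theorem el2c_thm (hDED : S_DED) (hPIDC : S_PIDC) (hNSP : S_NSP) : S_EL2C := by
  intro k k' _ _ _ _ a s hna hs hsf α β x y hnα hβ hno hy hx ht
  have hα : α ≠ 0 := by rintro rfl; exact hnα ⟨0, by simp⟩
  have hchar : CharZero k' := charZero_of_injective_algebraMap (algebraMap k k').injective
  have hinj : Function.Injective (aeval y : k[X] →ₐ[k] k') := transcendental_iff_injective.1 hy
  have hD1 : IsDedekindDomain (BB k a (s ^ 2)) := hDED k a _ hna hsf
  have hD2 : IsDedekindDomain (BB k' (algebraMap k k' a) (algebraMap k k' (s ^ 2))) :=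
    hDED k' _ _ (conic_nsq hα hβ hy hx ht hna) (squarefree_fpoly_map (algebraMap k k') hsf)
  have hchB : CharZero (BB k a (s ^ 2)) :=
    charZero_of_injective_algebraMap (FaithfulSMul.algebraMap_injective k (BB k a (s ^ 2)))
  set B := BB k a (s ^ 2) with hB
  set R' := BB k' (algebraMap k k' a) (algebraMap k k' (s ^ 2)) with hR'
  have hkB : Function.Injective (algebraMap k B) := (algebraMap k B).injective
  set α' : B := algebraMap k B α with hα'
  set β' : B := algebraMap k B β with hβ'
  have hα'0 : α' ≠ 0 := fun h => hα ((map_eq_zero_iff _ hkB).1 h)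
  have hβ'0 : β' ≠ 0 := fun h => hβ ((map_eq_zero_iff _ hkB).1 h)
  have hTdom : IsDomain (CR B α' β') := CR_isDomain hα'0 hβ'0
  -- the maps
  let f : B →+* CR B α' β' :=
    (algebraMap B[X] (CR B α' β')).comp (Polynomial.C : B →+* B[X])
  have hq : ev a (s ^ 2) y (C α' * X ^ 2 + C β') = algebraMap k' R' (x ^ 2) := by
    have h1 : (C α' * X ^ 2 + C β' : B[X]) = (C α * X ^ 2 + C β : k[X]).map (algebraMap k B) := by
      simp [α', β']
    have h2 : aeval y (C α * X ^ 2 + C β : k[X]) = x ^ 2 := by rw [hx]; simp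
    rw [h1, ev_map, h2]
  let g : CR B α' β' →+* R' := qlift (ev a (s ^ 2) y) (algebraMap k' R' x)
    (by rw [hq, ← map_mul]; exact congrArg _ (pow_two x).symm)
  have hgapp : ∀ z : CR B α' β', g z = ev a (s ^ 2) y z.re + ev a (s ^ 2) y z.im * algebraMap k' R' x :=
    fun z => rfl
  have hf : Function.Injective f := by
    intro p q h
    have h1 : (algebraMap B[X] (CR B α' β')) (C p) = (algebraMap B[X] (CR B α' β')) (C q) := h
    have h2 := congrArg QuadraticAlgebra.re h1
    exact Polynomial.C_injective h2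
  have hpart : ∀ (p q : B[X]) (j : ℕ),
      ((ev a (s ^ 2) y p + ev a (s ^ 2) y q * algebraMap k' R' x).re.coeff j =
        aeval y (cre a (s ^ 2) p j) + aeval y (cre a (s ^ 2) q j) * x) ∧
      ((ev a (s ^ 2) y p + ev a (s ^ 2) y q * algebraMap k' R' x).im.coeff j =
        aeval y (cim a (s ^ 2) p j) + aeval y (cim a (s ^ 2) q j) * x) := by
    intro p q j
    have h3 : algebraMap k' R' x = (⟨C x, 0⟩ : R') := rfl
    rw [h3]
    constructor
    · rw [QuadraticAlgebra.re_add, QuadraticAlgebra.re_mul, coeff_add, ev_re]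
      simp only [mul_zero, add_zero, coeff_mul_C]
      rw [ev_re]
    · rw [QuadraticAlgebra.im_add, QuadraticAlgebra.im_mul, coeff_add, ev_im]
      simp only [mul_zero, add_zero, zero_add, zero_mul, coeff_mul_C]
      rw [ev_im]
  have hginj : Function.Injective g := by
    rw [injective_iff_map_eq_zero]
    intro z hz
    rw [hgapp] at hz
    have h1 : ∀ j, (cre a (s ^ 2) z.re j = 0 ∧ cre a (s ^ 2) z.im j = 0) ∧
        (cim a (s ^ 2) z.re j = 0 ∧ cim a (s ^ 2) z.im j = 0) := by
      intro j
      have h2 := hpart z.re z.im j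
      rw [hz] at h2
      refine ⟨conic_lin hα hβ hy hx (by rw [← h2.1]; rfl),
        conic_lin hα hβ hy hx (by rw [← h2.2]; rfl)⟩
    ext1
    · exact eq_zero_of_parts a (s ^ 2) z.re fun j => ⟨(h1 j).1.1, (h1 j).2.1⟩
    · exact eq_zero_of_parts a (s ^ 2) z.im fun j => ⟨(h1 j).1.2, (h1 j).2.2⟩
  have hden : ∀ w : R', ∃ t b : CR B α' β', IsUnit (g t) ∧ g t * w = g b := by
    intro w
    rw [← mem_denomSubring]
    apply BB_mem_subring (denomSubring g)
    · intro z
      obtain ⟨P, Q, D, hD, hz⟩ := conic_form hα hβ hy hx ht z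
      have hD' : aeval y D ≠ 0 := fun h => hD (hinj (by rw [h, map_zero]))
      refine denom_div g ⟨D.map (algebraMap k B), 0⟩ ⟨P.map (algebraMap k B), Q.map (algebraMap k B)⟩
        _ ?_ ?_
      · rw [hgapp]
        simp only [map_zero, zero_mul, add_zero]
        rw [ev_map]
        exact (isUnit_iff_ne_zero.2 hD').map (algebraMap k' R')
      · rw [hgapp, hgapp]
        simp only [map_zero, zero_mul, add_zero]
        rw [ev_map, ev_map, ev_map]
        have h7 : (⟨C z, 0⟩ : R') = algebraMap k' R' z := rfl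
        rw [h7, ← map_mul, ← map_mul, ← map_add, hz]
    · have : (⟨X, 0⟩ : R') = g (f (⟨X, 0⟩ : B)) := by
        have h6 : g (f (⟨X, 0⟩ : B)) = bmap (algebraMap k k') (a := a) (c := s ^ 2) rfl rfl ⟨X, 0⟩ := by
          rw [hgapp]
          show ev a (s ^ 2) y (C _) + ev a (s ^ 2) y 0 * _ = _
          rw [map_zero, zero_mul, add_zero]
          simp [ev]
        rw [h6]
        show (⟨X, 0⟩ : R') = ⟨(X : k[X]).map (algebraMap k k'), (0 : k[X]).map (algebraMap k k')⟩
        rw [Polynomial.map_X, Polynomial.map_zero]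
      rw [this]
      exact denom_of_image g _
    · have : (⟨0, 1⟩ : R') = g (f (⟨0, 1⟩ : B)) := by
        have h6 : g (f (⟨0, 1⟩ : B)) = bmap (algebraMap k k') (a := a) (c := s ^ 2) rfl rfl ⟨0, 1⟩ := by
          rw [hgapp]
          show ev a (s ^ 2) y (C _) + ev a (s ^ 2) y 0 * _ = _
          rw [map_zero, zero_mul, add_zero]
          simp [ev]
        rw [h6]
        show (⟨0, 1⟩ : R') = ⟨(0 : k[X]).map (algebraMap k k'), (1 : k[X]).map (algebraMap k k')⟩
        rw [Polynomial.map_one, Polynomial.map_zero]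
      rw [this]
      exact denom_of_image g _
  have hgf : g.comp f = bmap (algebraMap k k') (a := a) (c := s ^ 2) rfl rfl := by
    ext1 b
    rw [RingHom.comp_apply, hgapp]
    show ev a (s ^ 2) y (C _) + ev a (s ^ 2) y 0 * _ = _
    rw [map_zero, zero_mul, add_zero]
    simp [ev]
  -- primes
  have hprime : ∀ p : Ideal B, p ≠ ⊥ → p.IsPrime → (p.map f).IsPrime := by
    intro p _ hp
    have hdp : IsDomain (B ⧸ p) := Ideal.Quotient.isDomain p
    have hik : Function.Injective ((Ideal.Quotient.mk p).comp (algebraMap k B)) :=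
      ((Ideal.Quotient.mk p).comp (algebraMap k B)).injective
    have hchp : CharZero (B ⧸ p) := by
      refine ⟨fun m n h => ?_⟩
      have h1 : ((Ideal.Quotient.mk p).comp (algebraMap k B)) (m : k) =
          ((Ideal.Quotient.mk p).comp (algebraMap k B)) (n : k) := by
        rw [map_natCast, map_natCast]; exact h
      exact Nat.cast_injective (hik h1)
    have hαp : Ideal.Quotient.mk p α' ≠ 0 := fun h => hα ((map_eq_zero_iff _ hik).1 h)
    have hβp : Ideal.Quotient.mk p β' ≠ 0 := fun h => hβ ((map_eq_zero_iff _ hik).1 h)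
    have hdom := CR_isDomain (D := B ⧸ p) hαp hβp
    let ψ : CR B α' β' →+* CR (B ⧸ p) (Ideal.Quotient.mk p α') (Ideal.Quotient.mk p β') :=
      qmap (Polynomial.mapRingHom (Ideal.Quotient.mk p)) (by simp)
    have hker : RingHom.ker ψ = p.map f := by
      apply le_antisymm
      · intro z hz
        have h1 : (⟨z.re.map (Ideal.Quotient.mk p), z.im.map (Ideal.Quotient.mk p)⟩ :
          CR (B ⧸ p) (Ideal.Quotient.mk p α') (Ideal.Quotient.mk p β')) = 0 := hz
        have h2 : z.re.map (Ideal.Quotient.mk p) = 0 := congrArg QuadraticAlgebra.re h1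
        have h3 : z.im.map (Ideal.Quotient.mk p) = 0 := congrArg QuadraticAlgebra.im h1
        have h4 : ∀ q : B[X], q.map (Ideal.Quotient.mk p) = 0 →
            algebraMap B[X] (CR B α' β') q ∈ p.map f := by
          intro q hq
          rw [← Ideal.map_map]
          apply Ideal.mem_map_of_mem
          rw [Ideal.mem_map_C_iff]
          intro n
          have h5 := congrArg (fun r => Polynomial.coeff r n) hq
          simp only [coeff_map, coeff_zero] at h5
          exact Ideal.Quotient.eq_zero_iff_mem.1 h5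
        have h5 : z = algebraMap B[X] (CR B α' β') z.re +
            algebraMap B[X] (CR B α' β') z.im * ⟨0, 1⟩ := by
          ext1 <;> simp [QuadraticAlgebra.algebraMap_re, QuadraticAlgebra.algebraMap_im]
        rw [h5]
        exact (p.map f).add_mem (h4 _ h2) (Ideal.mul_mem_right _ _ (h4 _ h3))
      · rw [Ideal.map_le_iff_le_comap]
        intro b hb
        rw [Ideal.mem_comap, RingHom.mem_ker]
        have h1 : ψ (f b) = (⟨(C b : B[X]).map (Ideal.Quotient.mk p), (0 : B[X]).map (Ideal.Quotient.mk p)⟩ :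
          CR (B ⧸ p) (Ideal.Quotient.mk p α') (Ideal.Quotient.mk p β')) := rfl
        rw [h1, Polynomial.map_C, Ideal.Quotient.eq_zero_iff_mem.2 hb, Polynomial.map_zero, C_0]
        rfl
    rw [← hker]
    exact RingHom.ker_isPrime ψ
  -- principality
  have hprin : ∀ I : Ideal (CR B α' β'), ∃ h ∈ I, ∀ z ∈ I, ∃ c : B, c ≠ 0 ∧ ∃ v, f c * z = h * v := by
    intro I
    let κ := FractionRing B
    have hBκ : Function.Injective (algebraMap B κ) := IsFractionRing.injective B κ
    have hchκ : CharZero κ := charZero_of_injective_algebraMap hBκ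
    obtain ⟨hn1, hn2⟩ := hNSP k a s hna hs α β hnα hβ hno κ ((algebraMap B κ).comp (algebraMap k B))
      (fun x => rfl)
    have hβκ : ((algebraMap B κ).comp (algebraMap k B)) β ≠ 0 :=
      fun h => hβ ((map_eq_zero_iff _ ((algebraMap B κ).comp (algebraMap k B)).injective).1 h)
    let ι : CR B α' β' →+* CR κ (algebraMap B κ α') (algebraMap B κ β') :=
      qmap (Polynomial.mapRingHom (algebraMap B κ)) (by simp)
    have hιapp : ∀ z : CR B α' β', ι z = ⟨z.re.map (algebraMap B κ), z.im.map (algebraMap B κ)⟩ :=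
      fun z => rfl
    refine principal_of_loc f ι ?_ ?_ I ?_ ?_
    · rw [injective_iff_map_eq_zero]
      intro z hz
      rw [hιapp] at hz
      have h2 : z.re.map (algebraMap B κ) = 0 := congrArg QuadraticAlgebra.re hz
      have h3 : z.im.map (algebraMap B κ) = 0 := congrArg QuadraticAlgebra.im hz
      ext1
      · exact (Polynomial.map_eq_zero_iff hBκ).1 h2
      · exact (Polynomial.map_eq_zero_iff hBκ).1 h3
    · intro t
      obtain ⟨c, hc, hcr⟩ := IsLocalization.integerNormalization_spec (nonZeroDivisors B) t.re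
      obtain ⟨d, hd, hdr⟩ := IsLocalization.integerNormalization_spec (nonZeroDivisors B) t.im
      have hc0 : c ≠ 0 := nonZeroDivisors.ne_zero hc
      have hd0 : d ≠ 0 := nonZeroDivisors.ne_zero hd
      refine ⟨c * d, mul_ne_zero hc0 hd0,
        ⟨C d * IsLocalization.integerNormalization (nonZeroDivisors B) t.re,
         C c * IsLocalization.integerNormalization (nonZeroDivisors B) t.im⟩, ?_⟩
      rw [hιapp, hιapp]
      have hfre : (f (c * d)).re = C (c * d) := rfl
      have hfim : (f (c * d)).im = 0 := rfl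
      rw [hfre, hfim]
      simp only [Polynomial.map_mul, Polynomial.map_C, Polynomial.map_zero]
      rw [hcr, hdr]
      ext1
      · simp only [QuadraticAlgebra.re_mul, mul_zero, zero_mul, add_zero]
        rw [map_mul, C_mul, Algebra.smul_def, Polynomial.algebraMap_apply]
        ring
      · simp only [QuadraticAlgebra.im_mul, mul_zero, zero_mul, add_zero]
        rw [map_mul, C_mul, Algebra.smul_def, Polynomial.algebraMap_apply]
        ring
    · exact hPIDC κ _ _ hn1 hβκ hn2 _
    · intro c hc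
      have h1 : ι (f c) = algebraMap κ (CR κ (algebraMap B κ α') (algebraMap B κ β')) (algebraMap B κ c) := by
        rw [hιapp]
        show (⟨(C c : B[X]).map (algebraMap B κ), (0 : B[X]).map (algebraMap B κ)⟩ :
          CR κ (algebraMap B κ α') (algebraMap B κ β')) = ⟨C (algebraMap B κ c), 0⟩
        rw [Polynomial.map_C, Polynomial.map_zero]
      rw [h1]
      have h2 : algebraMap B κ c ≠ 0 := fun h => hc ((map_eq_zero_iff _ hBκ).1 h)
      exact (isUnit_iff_ne_zero.2 h2).map _
  intro I' hI'
  have := abs_thm B (CR B α' β') R' f g hf hginj hden hprime hprin I' hI'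
  rw [hgf] at this
  exact this

end Pool.Agent.Helper5.W4
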