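import Pool.Agent.Helper5.W4.Common
import Pool.Agent.Helper5.W4.ABS

set_option autoImplicit false

namespace Pool.Agent.Helper5.W4

open Pool.Agent.Helper40.W4 Polynomial Module IntermediateField

lemma C_ext_BB {k' : Type} [Field k'] {a c : k'} (x : k') :
    (⟨C x, 0⟩ : BB k' a c) = algebraMap k' (BB k' a c) x := rfl

theorem el2r_thm (hDED : S_DED) : S_EL2R := by
  intro k k' _ _ _ _ a c hna hsf u hu hu'
  have hchar : CharZero k' := charZero_of_injective_algebraMap (algebraMap k k').injective
  have hD1 : IsDedekindDomain (BB k a c) := hDED k a c hna hsf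
  have hD2 : IsDedekindDomain (BB k' (algebraMap k k' a) (algebraMap k k' c)) :=
    hDED k' _ _ (nonsq_trans hu hu' hna) (squarefree_fpoly_map (algebraMap k k') hsf)
  have hinj : Function.Injective (aeval u : k[X] →ₐ[k] k') := transcendental_iff_injective.1 hu
  set R := BB k a c
  set R' := BB k' (algebraMap k k' a) (algebraMap k k' c) with hR'
  let β : R →+* R' := bmap (algebraMap k k') (a := a) (c := c) rfl rfl
  let g : R[X] →+* R' := Polynomial.eval₂RingHom β (algebraMap k' R' u)
  have hgC : g.comp (Polynomial.C : R →+* R[X]) = β := by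
    ext1 x
    simp [g]
  -- real parts
  have hre : ∀ (p : R[X]) (j : ℕ), (g p).re.coeff j =
      aeval u (∑ i ∈ p.support, monomial i ((p.coeff i).re.coeff j)) := by
    intro p j
    have h1 : g p = ∑ i ∈ p.support, β (p.coeff i) * (algebraMap k' R' u) ^ i := by
      simp only [g, coe_eval₂RingHom]
      rw [eval₂_eq_sum, sum_def]
    rw [h1, map_sum]
    have h2 : ∀ s : Finset ℕ, ((∑ i ∈ s, β (p.coeff i) * (algebraMap k' R' u) ^ i : R')).re.coeff j =
        ∑ i ∈ s, algebraMap k k' ((p.coeff i).re.coeff j) * u ^ i := by
      intro s
      induction s using Finset.induction_on with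
      | empty => simp
      | insert i s hi ih =>
        rw [Finset.sum_insert hi, Finset.sum_insert hi, QuadraticAlgebra.re_add, coeff_add, ih]
        congr 1
        have h3 : (algebraMap k' R' u) ^ i = (⟨C (u ^ i), 0⟩ : R') := by
          rw [← map_pow]; rfl
        rw [h3]
        show ((p.coeff i).re.map (algebraMap k k') * C (u ^ i) + _ * _ * 0).coeff j = _
        rw [mul_zero, add_zero, coeff_mul_C, coeff_map]
    rw [h2]
    apply Finset.sum_congr rfl
    intro i _
    rw [aeval_monomial]
  have him : ∀ (p : R[X]) (j : ℕ), (g p).im.coeff j =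
      aeval u (∑ i ∈ p.support, monomial i ((p.coeff i).im.coeff j)) := by
    intro p j
    have h1 : g p = ∑ i ∈ p.support, β (p.coeff i) * (algebraMap k' R' u) ^ i := by
      simp only [g, coe_eval₂RingHom]
      rw [eval₂_eq_sum, sum_def]
    rw [h1, map_sum]
    have h2 : ∀ s : Finset ℕ, ((∑ i ∈ s, β (p.coeff i) * (algebraMap k' R' u) ^ i : R')).im.coeff j =
        ∑ i ∈ s, algebraMap k k' ((p.coeff i).im.coeff j) * u ^ i := by
      intro s
      induction s using Finset.induction_on with
      | empty => simp
      | insert i s hi ih =>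
        rw [Finset.sum_insert hi, Finset.sum_insert hi, QuadraticAlgebra.im_add, coeff_add, ih]
        congr 1
        have h3 : (algebraMap k' R' u) ^ i = (⟨C (u ^ i), 0⟩ : R') := by
          rw [← map_pow]; rfl
        rw [h3]
        show ((p.coeff i).re.map (algebraMap k k') * 0 +
          (p.coeff i).im.map (algebraMap k k') * C (u ^ i) + 0 * _ * 0).coeff j = _
        rw [mul_zero, mul_zero, add_zero, zero_add, coeff_mul_C, coeff_map]
    rw [h2]
    apply Finset.sum_congr rfl
    intro i _
    rw [aeval_monomial]
  have hginj : Function.Injective g := by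
    rw [injective_iff_map_eq_zero]
    intro p hp
    ext1 i
    rw [coeff_zero]
    by_cases hi : i ∈ p.support
    · have hz : ∀ j, ((p.coeff i).re.coeff j = 0) ∧ ((p.coeff i).im.coeff j = 0) := by
        intro j
        constructor
        · have h1 := hre p j
          rw [hp] at h1
          have h2 : ∑ i ∈ p.support, monomial i ((p.coeff i).re.coeff j) = (0 : k[X]) := by
            apply hinj
            rw [← h1, map_zero]
            rfl
          have h3 := congrArg (fun q => Polynomial.coeff q i) h2
          simp only [finsetSum_coeff, coeff_monomial, coeff_zero] at h3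
          rw [Finset.sum_ite_eq' p.support i] at h3
          simpa [hi] using h3
        · have h1 := him p j
          rw [hp] at h1
          have h2 : ∑ i ∈ p.support, monomial i ((p.coeff i).im.coeff j) = (0 : k[X]) := by
            apply hinj
            rw [← h1, map_zero]
            rfl
          have h3 := congrArg (fun q => Polynomial.coeff q i) h2
          simp only [finsetSum_coeff, coeff_monomial, coeff_zero] at h3
          rw [Finset.sum_ite_eq' p.support i] at h3
          simpa [hi] using h3
      ext j
      · exact (hz j).1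
      · exact (hz j).2
    · exact notMem_support_iff.1 hi
  have hden : ∀ w : R', ∃ t b : R[X], IsUnit (g t) ∧ g t * w = g b := by
    intro w
    rw [← mem_denomSubring]
    apply BB_mem_subring (denomSubring g)
    · intro x
      have hxm : x ∈ k⟮u⟯ := by rw [hu']; exact IntermediateField.mem_top
      obtain ⟨r, s, rfl⟩ := (IntermediateField.mem_adjoin_simple_iff k x).1 hxm
      have hpoly : ∀ q : k[X], g (q.map (algebraMap k R)) = algebraMap k' R' (aeval u q) := by
        intro q
        simp only [g, coe_eval₂RingHom]
        rw [eval₂_map]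
        have : β.comp (algebraMap k R) = (algebraMap k' R').comp (algebraMap k k') := by
          ext1 z
          have h4 : (algebraMap k R) z = ⟨C z, 0⟩ := rfl
          have h5 : (algebraMap k' R') (algebraMap k k' z) = ⟨C (algebraMap k k' z), 0⟩ := rfl
          rw [RingHom.comp_apply, RingHom.comp_apply, h4, h5]
          show (⟨(C z).map (algebraMap k k'), (0 : k[X]).map (algebraMap k k')⟩ : R') = _
          rw [Polynomial.map_C, Polynomial.map_zero]
        rw [this, ← Polynomial.hom_eval₂]
        rfl
      by_cases hs : s = 0
      · subst hs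
        rw [map_zero, div_zero, map_zero]
        have : (⟨0, 0⟩ : R') = 0 := rfl
        rw [this]
        exact (denomSubring g).zero_mem
      · have hs' : aeval u s ≠ 0 := fun h => hs (hinj (by rw [h, map_zero]))
        refine denom_div g (s.map (algebraMap k R)) (r.map (algebraMap k R)) _ ?_ ?_
        · rw [hpoly]
          exact (isUnit_iff_ne_zero.2 hs').map (algebraMap k' R')
        · rw [hpoly, hpoly, C_ext_BB, ← map_mul]
          congr 1
          field_simp
    · have : (⟨X, 0⟩ : R') = g (Polynomial.C (⟨X, 0⟩ : R)) := by
        have h6 : g (Polynomial.C (⟨X, 0⟩ : R)) = β ⟨X, 0⟩ := by simp [g]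
        rw [h6]
        show (⟨X, 0⟩ : R') = ⟨(X : k[X]).map (algebraMap k k'), (0 : k[X]).map (algebraMap k k')⟩
        rw [Polynomial.map_X, Polynomial.map_zero]
      rw [this]
      exact denom_of_image g _
    · have : (⟨0, 1⟩ : R') = g (Polynomial.C (⟨0, 1⟩ : R)) := by
        have h6 : g (Polynomial.C (⟨0, 1⟩ : R)) = β ⟨0, 1⟩ := by simp [g]
        rw [h6]
        show (⟨0, 1⟩ : R') = ⟨(0 : k[X]).map (algebraMap k k'), (1 : k[X]).map (algebraMap k k')⟩
        rw [Polynomial.map_one, Polynomial.map_zero]
      rw [this]
      exact denom_of_image g _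
  intro I' hI'
  have := abs_thm R R[X] R' (Polynomial.C : R →+* R[X]) g Polynomial.C_injective hginj hden
    (fun p _ hp => Ideal.isPrime_map_C_of_isPrime) principal_up_to_denom I' hI'
  rw [hgC] at this
  exact this

end Pool.Agent.Helper5.W4
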