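import Pool.Agent.Helper40.W4.Spec

set_option autoImplicit false

namespace Pool.Agent.Helper5.W4

open Pool.Agent.Helper40.W4 Polynomial Module

/-- Evaluation at a rational point of the curve. -/
noncomputable def evPt {k : Type} [Field k] {a c x y : k} (h : y ^ 2 = a * x ^ 6 + x ^ 5 + c) :
    BB k a c →ₐ[k] k where
  toFun w := w.re.eval x + w.im.eval x * y
  map_one' := by simp [QuadraticAlgebra.re_one, QuadraticAlgebra.im_one]
  map_mul' w v := by
    simp only [QuadraticAlgebra.re_mul, QuadraticAlgebra.im_mul, fpoly, eval_add, eval_mul, eval_C,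
      eval_pow, eval_X, zero_mul, add_zero]
    linear_combination (- eval x w.im * eval x v.im) * h
  map_zero' := by simp
  map_add' w v := by simp; ring
  commutes' r := by
    have h1 : (algebraMap k (BB k a c) r).re = C r := rfl
    have h2 : (algebraMap k (BB k a c) r).im = 0 := rfl
    show (algebraMap k (BB k a c) r).re.eval x + (algebraMap k (BB k a c) r).im.eval x * y =
      algebraMap k k r
    rw [h1, h2]
    simp

lemma evPt_apply {k : Type} [Field k] {a c x y : k} (h : y ^ 2 = a * x ^ 6 + x ^ 5 + c)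
    (w : BB k a c) : evPt h w = w.re.eval x + w.im.eval x * y := rfl

lemma finrank_ker_evPt {k : Type} [Field k] {a c x y : k} (h : y ^ 2 = a * x ^ 6 + x ^ 5 + c) :
    finrank k (BB k a c ⧸ RingHom.ker (evPt h)) = 1 := by
  have hs : Function.Surjective (evPt h) := by
    intro r
    refine ⟨algebraMap k (BB k a c) r, ?_⟩
    rw [AlgHom.commutes]; rfl
  have e := (Ideal.quotientKerAlgEquivOfSurjective hs).toLinearEquiv.finrank_eq
  rw [finrank_self] at e
  exact e

theorem pt_thm : S_PT := by
  intro k _ _ a s σ hG x y hx hy h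
  set I : Ideal (BB k a (s ^ 2)) := RingHom.ker (evPt h) with hI
  have hodd : Odd (finrank k (BB k a (s ^ 2) ⧸ I)) := by
    rw [hI, finrank_ker_evPt h]; exact odd_one
  have key : ∀ (τ : k →+* k) (h1 : τ a = a) (h2 : τ (s ^ 2) = s ^ 2), τ x = x → τ y = y →
      ∀ w : BB k a (s ^ 2), evPt h (bmap τ h1 h2 w) = τ (evPt h w) := by
    intro τ h1 h2 hx hy w
    rw [evPt_apply, evPt_apply]
    show (w.re.map τ).eval x + (w.im.map τ).eval x * y = _
    conv_lhs => rw [← hx, ← hy]
    rw [eval_map_apply, eval_map_apply, ← map_mul, ← map_add]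
  have hσc : σ.toRingHom (s ^ 2) = s ^ 2 := by
    show σ (s ^ 2) = s ^ 2
    rw [map_pow, hG.fs, neg_sq]
  have hle : ∀ w, w ∈ I ↔ bmap (σ : k →+* k) hG.fa hσc w ∈ I := by
    intro w
    rw [hI, RingHom.mem_ker, RingHom.mem_ker]
    rw [key (σ : k →+* k) hG.fa hσc hx hy w]
    constructor
    · intro h; rw [h, map_zero]
    · intro h; exact (map_eq_zero (σ : k →+* k)).1 h
  have hmap : I.map (bmap (a := a) (c := s ^ 2) (a' := a) (c' := s ^ 2)
        (σ : k →+* k) hG.fa hσc) = I := by
    apply le_antisymm
    · rw [Ideal.map_le_iff_le_comap]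
      intro w hw
      exact (hle w).1 hw
    · intro w hw
      have hsurj : ∃ v, bmap (σ : k →+* k) hG.fa hσc v = w := by
        refine ⟨⟨w.re.map (σ.symm : k →+* k), w.im.map (σ.symm : k →+* k)⟩, ?_⟩
        have e : ∀ p : k[X], (p.map (σ.symm : k →+* k)).map (σ : k →+* k) = p := by
          intro p
          rw [Polynomial.map_map]
          have : (σ : k →+* k).comp (σ.symm : k →+* k) = RingHom.id k := by
            ext z; simp
          rw [this, Polynomial.map_id]
        show (⟨_, _⟩ : BB k a (s ^ 2)) = w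
        ext1
        · exact e _
        · exact e _
      obtain ⟨v, rfl⟩ := hsurj
      exact Ideal.mem_map_of_mem _ ((hle v).2 hw)
  have := hG.nq I hodd 1 1 one_ne_zero one_ne_zero
  apply this
  rw [hmap]

end Pool.Agent.Helper5.W4
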