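import Pool.Agent.Helper5.W4.Common

set_option autoImplicit false

namespace Pool.Agent.Helper5.W4

open Pool.Agent.Helper40.W4 Polynomial Module IntermediateField

/-- `α X² + β` is not a square times a constant. -/
lemma nsquare_field {κ : Type} [Field κ] [CharZero κ] {α β a : κ} (hα : α ≠ 0) (hβ : β ≠ 0)
    (ha : a ≠ 0) {P Q : κ[X]} (h : C a * P ^ 2 = Q ^ 2 * (C α * X ^ 2 + C β)) : Q = 0 ∧ P = 0 := by
  have hQ : Q = 0 := by
    by_contra hQ0
    have h1 : Q ^ 2 ∣ P ^ 2 := by
      refine ⟨(C α * X ^ 2 + C β) * C a⁻¹, ?_⟩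
      rw [← mul_assoc, ← h]
      have : C a * C a⁻¹ = (1 : κ[X]) := by rw [← C_mul, mul_inv_cancel₀ ha, C_1]
      linear_combination (- P ^ 2) * this
    obtain ⟨R, rfl⟩ := (IsIntegrallyClosed.pow_dvd_pow_iff (two_ne_zero)).1 h1
    have h2 : C a * R ^ 2 = C α * X ^ 2 + C β := by
      have h3 : Q ^ 2 ≠ 0 := pow_ne_zero 2 hQ0
      apply mul_left_cancel₀ h3
      linear_combination h
    have hdeg : (C α * X ^ 2 + C β : κ[X]).natDegree = 2 := by
      have : (C α * X ^ 2 + C β : κ[X]) = C α * X ^ 2 + C 0 * X + C β := by simp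
      rw [this]
      exact natDegree_quadratic hα
    have hR : R.natDegree = 1 := by
      have h4 := congrArg natDegree h2
      rw [hdeg, natDegree_C_mul ha, natDegree_pow] at h4
      omega
    obtain ⟨u, hu, v, rfl⟩ : ∃ u : κ, u ≠ 0 ∧ ∃ v : κ, R = C u * X + C v := by
      refine ⟨R.coeff 1, ?_, R.coeff 0, ?_⟩
      · have : R.leadingCoeff ≠ 0 := by
          apply leadingCoeff_ne_zero.2
          rintro rfl
          simp at hR
        rwa [leadingCoeff, hR] at this
      · exact eq_X_add_C_of_natDegree_le_one hR.le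
    have e1 := congrArg (fun p => Polynomial.eval 0 p) h2
    have e2 := congrArg (fun p => Polynomial.eval 1 p) h2
    have e3 := congrArg (fun p => Polynomial.eval (-1) p) h2
    simp only [eval_mul, eval_C, eval_pow, eval_add, eval_X] at e1 e2 e3
    have e4 : a * (4 * (u * v)) = 0 := by linear_combination e2 - e3
    have e5 : v = 0 := by
      rcases mul_eq_zero.1 e4 with h5 | h5
      · exact absurd h5 ha
      · rcases mul_eq_zero.1 h5 with h6 | h6
        · norm_num at h6
        · exact (mul_eq_zero.1 h6).resolve_left hu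
    rw [e5] at e1
    apply hβ
    linear_combination -e1
  refine ⟨hQ, ?_⟩
  rw [hQ] at h
  have h2 : C a * P ^ 2 = 0 := by rw [h]; ring
  rcases mul_eq_zero.1 h2 with h3 | h3
  · exact absurd (C_eq_zero.1 h3) ha
  · exact pow_eq_zero_iff (two_ne_zero) |>.1 h3

lemma nsquare_domain {D : Type} [CommRing D] [IsDomain D] [CharZero D] {α β : D} (hα : α ≠ 0)
    (hβ : β ≠ 0) {P Q : D[X]} (h : P ^ 2 = Q ^ 2 * (C α * X ^ 2 + C β)) : Q = 0 ∧ P = 0 := by
  have hi : Function.Injective (algebraMap D (FractionRing D)) := IsFractionRing.injective D _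
  have hchar : CharZero (FractionRing D) := charZero_of_injective_algebraMap hi
  have h1 := congrArg (Polynomial.map (algebraMap D (FractionRing D))) h
  simp only [Polynomial.map_pow, Polynomial.map_mul, Polynomial.map_add, Polynomial.map_C,
    Polynomial.map_X] at h1
  have h2 := nsquare_field (κ := FractionRing D) (α := algebraMap _ _ α) (β := algebraMap _ _ β)
    (a := 1) (fun h => hα ((map_eq_zero_iff _ hi).1 h)) (fun h => hβ ((map_eq_zero_iff _ hi).1 h))
    one_ne_zero (P := P.map (algebraMap D (FractionRing D)))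
    (Q := Q.map (algebraMap D (FractionRing D))) (by rw [C_1, one_mul]; exact h1)
  exact ⟨(Polynomial.map_eq_zero_iff hi).1 h2.1, (Polynomial.map_eq_zero_iff hi).1 h2.2⟩

/-- The conic ring. -/
abbrev CR (D : Type) [CommRing D] (α β : D) := QuadraticAlgebra D[X] (C α * X ^ 2 + C β) 0

lemma CR_isDomain {D : Type} [CommRing D] [IsDomain D] [CharZero D] {α β : D} (hα : α ≠ 0)
    (hβ : β ≠ 0) : IsDomain (CR D α β) := by
  have hn : ∀ z : CR D α β, QuadraticAlgebra.norm z = 0 → z = 0 := by
    intro z hz
    rw [QuadraticAlgebra.norm_def] at hz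
    have h := nsquare_domain hα hβ (P := z.re) (Q := z.im) (by linear_combination hz)
    ext1
    · exact h.2
    · exact h.1
  have : NoZeroDivisors (CR D α β) := by
    refine ⟨fun {z w} h => ?_⟩
    have h1 : QuadraticAlgebra.norm z * QuadraticAlgebra.norm w = 0 := by
      rw [← map_mul, h]; exact QuadraticAlgebra.norm_zero
    rcases mul_eq_zero.1 h1 with h2 | h2
    · exact Or.inl (hn z h2)
    · exact Or.inr (hn w h2)
  exact NoZeroDivisors.to_isDomain _

/-- Functoriality. -/
def qmap {R S : Type} [CommRing R] [CommRing S] (ψ : R →+* S) {a : R} {a' : S} (h : ψ a = a') :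
    QuadraticAlgebra R a 0 →+* QuadraticAlgebra S a' 0 where
  toFun w := ⟨ψ w.re, ψ w.im⟩
  map_one' := by ext1 <;> simp [QuadraticAlgebra.re_one, QuadraticAlgebra.im_one]
  map_mul' x y := by
    subst h
    ext1 <;> simp
  map_zero' := by ext1 <;> simp
  map_add' x y := by ext1 <;> simp

/-- Homomorphisms from the quadratic algebra. -/
def qlift {R S : Type} [CommRing R] [CommRing S] (ψ : R →+* S) {a : R} (u : S) (h : u * u = ψ a) :
    QuadraticAlgebra R a 0 →+* S where
  toFun w := ψ w.re + ψ w.im * u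
  map_one' := by simp [QuadraticAlgebra.re_one, QuadraticAlgebra.im_one]
  map_mul' x y := by
    simp only [QuadraticAlgebra.re_mul, QuadraticAlgebra.im_mul, map_add, map_mul, zero_mul, add_zero]
    linear_combination (- ψ x.im * ψ y.im) * h
  map_zero' := by simp
  map_add' x y := by simp; ring

end Pool.Agent.Helper5.W4
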